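import Pool.Agent.Helper35.MS.StC
import Pool.Agent.Helper34.BX.Box

/-!
Certificate CE2 of project MS, by Bernstein subdivision (`Helper34/BX/Box.lean`).

With `x = r²`, `y = r t` for `x < 1` and `x = 1/z`, `y = s/z` for `x ≥ 1`.
-/

set_option autoImplicit false

namespace Pool.Agent.Helper34.MS

open Pool.Agent.Helper34.BX Helper35.MS

/-- the polynomial in `r` (inner), `t` (outer) -/
def cN : List (List ℤ) :=
  [[320000, 0, 15315200, 0, 277891264, 0, 2450579408, 0, 11189588404, 0, 23888480960, 0,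
     35684460800, 0, 30403584000, 0, 7741440000],
   [0, -144000, 0, 1131840, 0, 52142760, 0, 347511420, 0, 680572800, 0, 572256000, 0,
     207360000],
   [-1920000, 0, -97132800, 0, -1839566400, 0, -16180631400, 0, -67708924800, 0,
     -130723392000, 0, -117995520000, 0, -47923200000],
   [0, 864000, 0, 36720000, 0, 474822000, 0, 2348784000, 0, 3922560000, 0, 2073600000],
   [2880000, 0, 145440000, 0, 2746260000, 0, 23901120000, 0, 95166720000, 0, 145612800000,
     0, 73728000000]]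

/-- quotient near `r = 0` -/
def cP : List (List ℤ) :=
  [[0, 15315200, 0, 277891264, 0, 2450579408, 0, 11189588404, 0, 23888480960, 0,
     35684460800, 0, 30403584000, 0, 7741440000],
   [-144000, 0, 1131840, 0, 52142760, 0, 347511420, 0, 680572800, 0, 572256000, 0, 207360000],
   [0, -97132800, 0, -1839566400, 0, -16180631400, 0, -67708924800, 0, -130723392000, 0,
     -117995520000, 0, -47923200000],
   [864000, 0, 36720000, 0, 474822000, 0, 2348784000, 0, 3922560000, 0, 2073600000],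
   [0, 145440000, 0, 2746260000, 0, 23901120000, 0, 95166720000, 0, 145612800000, 0,
     73728000000]]

/-- the polynomial in `z` (inner), `s` (outer) -/
def cZ : List (List ℤ) :=
  [[7741440000, 30403584000, 35684460800, 23888480960, 11189588404, 2450579408, 277891264,
     15315200, 320000],
   [0, 207360000, 572256000, 680572800, 347511420, 52142760, 1131840, -144000],
   [-47923200000, -117995520000, -130723392000, -67708924800, -16180631400, -1839566400,
     -97132800, -1920000],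
   [0, 2073600000, 3922560000, 2348784000, 474822000, 36720000, 864000],
   [73728000000, 145612800000, 95166720000, 23901120000, 2746260000, 145440000, 2880000]]

/-- quotient near `z = 0` -/
def cQ : List (List ℤ) :=
  [[28144128000, 33598688000, 23520916160, 11174228404, 2450579408, 277891264, 15315200,
     320000],
   [276480000, 636192000, 687484800, 347511420, 52142760, 1131840, -144000],
   [-114355200000, -130141632000, -67685884800, -16180631400, -1839566400, -97132800,
     -1920000],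
   [2073600000, 3922560000, 2348784000, 474822000, 36720000, 864000],
   [145612800000, 95166720000, 23901120000, 2746260000, 145440000, 2880000]]


/-- right side minus left side -/
noncomputable def bb (x y : ℝ) : ℝ :=
  (fm1 x + gm1 x * y) * (x ^ 2 + x + y ^ 2) - gm0 x * (x + (fm0 x - gm0 x * y)) * y -
    (y ^ 2 + (fm0 x - gm0 x * y) ^ 2 +
      2 * (y ^ 2 / x) * ((fm0 x - gm0 x * y) - y ^ 2 / x) - (fm0 x - gm0 x * y))

/-- polynomial form of the numerator -/
lemma ev_cN (r t : ℝ) (hr : 0 < r) :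
    22500 * ((1 + 8 * r ^ 2) * (8 + 10 * r ^ 2) * (1 + 16 * r ^ 2)) ^ 2 * bb (r ^ 2) (r * t) =
      ev2 cN r t := by
  have h1 : (0 : ℝ) < 1 + 8 * r ^ 2 := by positivity
  have h2 : (0 : ℝ) < 8 + 10 * r ^ 2 := by positivity
  have h3 : (0 : ℝ) < 1 + 16 * r ^ 2 := by positivity
  have hw : (r * t) ^ 2 / r ^ 2 = t ^ 2 := by
    field_simp
  unfold bb fm0 fm1 gm0 gm1
  rw [hw]
  simp only [cN, ev2_cons, ev2_nil, ev_cons, ev_nil]
  push_cast
  field_simp
  ring

lemma ev_cZ (z s : ℝ) (hz : 0 < z) :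
    22500 * ((z + 8) * (8 * z + 10) * (z + 16)) ^ 2 * (z ^ 2 * bb (1 / z) (s / z)) =
      ev2 cZ z s := by
  have h1 : (0 : ℝ) < z + 8 := by positivity
  have h2 : (0 : ℝ) < 8 * z + 10 := by positivity
  have h3 : (0 : ℝ) < z + 16 := by positivity
  have hw : (s / z) ^ 2 / (1 / z) = s ^ 2 / z := by
    field_simp
  have e1 : fm0 (1 / z) = 2 / 3 - 22 / (25 * (z + 8)) + 3 / (z * (8 * z + 10)) := by
    unfold fm0
    field_simp
  have e2 : fm1 (1 / z) = -22 * z ^ 2 / (25 * (z + 8) ^ 2) + (48 * z + 30) / (8 * z + 10) ^ 2 := by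
    unfold fm1
    field_simp
  have e3 : gm0 (1 / z) = 3 * z / (10 * (z + 16)) := by
    unfold gm0
    field_simp
  have e4 : gm1 (1 / z) = 24 * z ^ 2 / (5 * (z + 16) ^ 2) := by
    unfold gm1
    field_simp
  unfold bb
  rw [hw, e1, e2, e3, e4]
  simp only [cZ, ev2_cons, ev2_nil, ev_cons, ev_nil]
  push_cast
  field_simp
  ring

lemma cP_eq (r t : ℝ) : ev2 cN r t = 320000 * (3 * t ^ 2 - 1) ^ 2 + r * ev2 cP r t := by
  simp only [cN, cP, ev2_cons, ev2_nil, ev_cons, ev_nil]
  push_cast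
  ring

lemma cQ_eq (z s : ℝ) (hz : 0 < z) : ev2 cZ z s =
    19200 * (150 * ((z + 8) * (8 * z + 10) * (z + 16)) * (z * (fm0 (1 / z) - gm0 (1 / z) * (s / z))
      - s ^ 2)) + 737280000 * (3 - 10 * s ^ 2) ^ 2 + z * ev2 cQ z s := by
  have h1 : (0 : ℝ) < z + 8 := by positivity
  have h2 : (0 : ℝ) < 8 * z + 10 := by positivity
  have h3 : (0 : ℝ) < z + 16 := by positivity
  have e1 : fm0 (1 / z) = 2 / 3 - 22 / (25 * (z + 8)) + 3 / (z * (8 * z + 10)) := by
    unfold fm0
    field_simp
  have e3 : gm0 (1 / z) = 3 * z / (10 * (z + 16)) := by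
    unfold gm0
    field_simp
  rw [e1, e3]
  simp only [cZ, cQ, ev2_cons, ev2_nil, ev_cons, ev_nil]
  push_cast
  field_simp
  ring

lemma chkP : chk 12 true 0 1 16 1 2 2 cP = true := by decide +kernel

lemma chkN : chk 12 true 1 16 16 1 2 2 cN = true := by decide +kernel

lemma chkZ : chk 12 true 1 17 16 3 8 8 cZ = true := by decide +kernel

lemma chkQ : chk 12 true 0 1 16 3 8 8 cQ = true := by decide +kernel

lemma cN_nonneg {r t : ℝ} (hr0 : 0 < r) (hr : r < 1) (ht0 : 1 / 2 ≤ t) (ht : t < 1) :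
    0 ≤ ev2 cN r t := by
  rcases lt_or_ge r (1 / 16) with h | h
  · rw [cP_eq]
    have h1 : 0 ≤ ev2 cP r t := by
      refine box_nonneg 12 true (by norm_num) (by norm_num) chkP ?_ ?_ ?_ ?_ <;> push_cast <;>
        linarith
    positivity
  · refine box_nonneg 12 true (by norm_num) (by norm_num) chkN ?_ ?_ ?_ ?_ <;> push_cast <;>
      linarith

lemma cZ_nonneg {z s : ℝ} (hz0 : 0 < z) (hz : z ≤ 1) (hs0 : 3 / 8 ≤ s) (hs : s < 1)
    (hc : s ^ 2 ≤ z * (fm0 (1 / z) - gm0 (1 / z) * (s / z))) : 0 ≤ ev2 cZ z s := by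
  rcases lt_or_ge z (1 / 16) with h | h
  · rw [cQ_eq z s hz0]
    have h1 : 0 ≤ ev2 cQ z s := by
      refine box_nonneg 12 true (by norm_num) (by norm_num) chkQ ?_ ?_ ?_ ?_ <;> push_cast <;>
        linarith
    have h2 : 0 ≤ z * (fm0 (1 / z) - gm0 (1 / z) * (s / z)) - s ^ 2 := by linarith
    positivity
  · refine box_nonneg 12 true (by norm_num) (by norm_num) chkZ ?_ ?_ ?_ ?_ <;> push_cast <;>
      linarith

lemma fm0_ge {x : ℝ} (hx : 0 ≤ x) : 3 / 5 ≤ fm0 x := by
  have h1 : (0 : ℝ) < 1 + 8 * x := by positivity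
  have h2 : (0 : ℝ) < 8 + 10 * x := by positivity
  have e : fm0 x - 3 / 5 =
      (1800 * x ^ 3 - 35 * x ^ 2 - 158 * x + 40) / (75 * ((1 + 8 * x) * (8 + 10 * x))) := by
    unfold fm0
    field_simp
    ring
  have h3 : 0 ≤ 1800 * x ^ 3 - 35 * x ^ 2 - 158 * x + 40 := by
    nlinarith [mul_nonneg hx (sq_nonneg (x - 9 / 50)), sq_nonneg (x - 9 / 50)]
  have h4 : 0 ≤ fm0 x - 3 / 5 := by
    rw [e]
    positivity
  linarith

lemma fm0_le {x : ℝ} (hx : 0 ≤ x) : fm0 x ≤ 2 / 3 + 3 / 10 * x := by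
  have h1 : (0 : ℝ) < 1 + 8 * x := by positivity
  have h2 : (0 : ℝ) < 8 + 10 * x := by positivity
  have e : 2 / 3 + 3 / 10 * x - fm0 x = 22 * x / (25 * (1 + 8 * x)) +
      24 * x / (10 * (8 + 10 * x)) := by
    unfold fm0
    field_simp
    ring
  have h4 : 0 ≤ 2 / 3 + 3 / 10 * x - fm0 x := by
    rw [e]
    positivity
  linarith

lemma fm0_ge' {x : ℝ} (hx : 0 ≤ x) : 3 / 10 + 3 / 10 * x ≤ fm0 x := by
  have h1 : (0 : ℝ) < 1 + 8 * x := by positivity
  have h2 : (0 : ℝ) < 8 + 10 * x := by positivity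
  have e : 22 * x / (25 * (1 + 8 * x)) ≤ 11 / 100 := by
    rw [div_le_div_iff₀ (by positivity) (by norm_num)]
    nlinarith
  have e' : 3 * x ^ 2 / (8 + 10 * x) = 3 / 10 * x - 24 * x / (10 * (8 + 10 * x)) := by
    field_simp
    ring
  have e'' : 24 * x / (10 * (8 + 10 * x)) ≤ 24 / 100 := by
    rw [div_le_div_iff₀ (by positivity) (by norm_num)]
    nlinarith
  unfold fm0
  rw [e']
  linarith

/-- CE2 -/
theorem hCE2 : StCE2 := by
  intro x y hx hy g k hg hk h1 h2
  have hgm : 0 < gm0 x := by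
    unfold gm0
    positivity
  have key : 0 ≤ bb x y := by
    rw [hg] at h1 h2
    have hgle : fm0 x - gm0 x * y ≤ fm0 x := by
      have := mul_nonneg hgm.le hy
      linarith
    have hfl := fm0_le hx.le
    rcases lt_or_ge x 1 with hx1 | hx1
    · obtain ⟨r, hr, rfl⟩ : ∃ r : ℝ, 0 < r ∧ x = r ^ 2 :=
        ⟨Real.sqrt x, Real.sqrt_pos.2 hx, (Real.sq_sqrt hx.le).symm⟩
      obtain ⟨t, rfl⟩ : ∃ t : ℝ, y = r * t := ⟨y / r, by field_simp⟩
      have ht : 0 ≤ t := nonneg_of_mul_nonneg_right hy hr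
      have hr1 : r < 1 := by nlinarith
      have hr2 : 0 < r ^ 2 := by positivity
      have h3 : t ^ 2 ≤ fm0 (r ^ 2) - gm0 (r ^ 2) * (r * t) := by
        rw [mul_pow] at h2
        exact le_of_mul_le_mul_left h2 hr2
      have h4 : (fm0 (r ^ 2) - gm0 (r ^ 2) * (r * t)) / 2 ≤ t ^ 2 := by
        rw [mul_pow, mul_div_assoc] at h1
        exact le_of_mul_le_mul_left h1 hr2
      have ht1 : t < 1 := by nlinarith
      have hfg := fm0_ge hx.le
      have hgy : gm0 (r ^ 2) * (r * t) ≤ 3 / 80 := by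
        have h5 : gm0 (r ^ 2) * (r * t) = 3 * r * t / (10 * (1 + 16 * r ^ 2)) := by
          unfold gm0
          field_simp
        rw [h5, div_le_div_iff₀ (by positivity) (by norm_num)]
        nlinarith [sq_nonneg (4 * r - 1), mul_nonneg hr.le (sub_nonneg.2 ht1.le)]
      have ht2 : 1 / 2 ≤ t := by nlinarith
      have h6 := cN_nonneg hr hr1 ht2 ht1
      rw [← ev_cN r t hr] at h6
      exact nonneg_of_mul_nonneg_right h6 (by positivity)
    · obtain ⟨z, hz, rfl⟩ : ∃ z : ℝ, 0 < z ∧ x = 1 / z := ⟨1 / x, by positivity, by simp⟩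
      obtain ⟨s, rfl⟩ : ∃ s : ℝ, y = s / z := ⟨y * z, by field_simp⟩
      have hz1 : z ≤ 1 := by
        rw [le_div_iff₀ hz] at hx1
        linarith
      have hs : 0 ≤ s := by
        have := mul_nonneg hy hz.le
        rwa [div_mul_cancel₀ _ hz.ne'] at this
      have hzz : 0 < z ^ 2 := by positivity
      have h3 : s ^ 2 ≤ z * (fm0 (1 / z) - gm0 (1 / z) * (s / z)) := by
        have := mul_le_mul_of_nonneg_left h2 hzz.le
        have e1 : z ^ 2 * (s / z) ^ 2 = s ^ 2 := by field_simp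
        have e2 : z ^ 2 * (1 / z * (fm0 (1 / z) - gm0 (1 / z) * (s / z))) =
            z * (fm0 (1 / z) - gm0 (1 / z) * (s / z)) := by
          field_simp
        rwa [e1, e2] at this
      have h4 : z * (fm0 (1 / z) - gm0 (1 / z) * (s / z)) / 2 ≤ s ^ 2 := by
        have := mul_le_mul_of_nonneg_left h1 hzz.le
        have e1 : z ^ 2 * (s / z) ^ 2 = s ^ 2 := by field_simp
        have e2 : z ^ 2 * (1 / z * (fm0 (1 / z) - gm0 (1 / z) * (s / z)) / 2) =
            z * (fm0 (1 / z) - gm0 (1 / z) * (s / z)) / 2 := by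
          field_simp
        rwa [e1, e2] at this
      have e3 : z * (3 / 10 * (1 / z)) = 3 / 10 := by field_simp
      have hs1 : s < 1 := by
        have h5 := mul_le_mul_of_nonneg_left (hgle.trans hfl) hz.le
        rw [mul_add, e3] at h5
        nlinarith
      have hgy : z * (gm0 (1 / z) * (s / z)) ≤ 3 / 160 := by
        have h5 : z * (gm0 (1 / z) * (s / z)) = 3 * z * s / (10 * (z + 16)) := by
          unfold gm0
          field_simp
        rw [h5, div_le_div_iff₀ (by positivity) (by norm_num)]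
        nlinarith [mul_nonneg hz.le (sub_nonneg.2 hs1.le)]
      have hs2 : 3 / 8 ≤ s := by
        have h5 := mul_le_mul_of_nonneg_left (fm0_ge' hx.le) hz.le
        rw [mul_add, e3] at h5
        rw [mul_sub] at h4
        nlinarith
      have h6 := cZ_nonneg hz hz1 hs2 hs1 h3
      rw [← ev_cZ z s hz] at h6
      have h7 : 0 ≤ z ^ 2 * bb (1 / z) (s / z) :=
        nonneg_of_mul_nonneg_right h6 (by positivity)
      exact nonneg_of_mul_nonneg_right h7 hzz
  unfold bb at key
  rw [hk, hg]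
  linarith

end Pool.Agent.Helper34.MS
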